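import Pool.Agent.Helper62.PM.St

/-!
# PM module B: uniform second difference quotients
-/

set_option autoImplicit false

open MeasureTheory Metric Set Filter Topology
open scoped RealInnerProductSpace ContDiff

namespace Pool.Agent.Helper71.PM

open Pool.Agent.Helper62.PM
open Pool.Agent.Helper62.Mink

/-- uniform continuity at `0` -/
private theorem B_unif (X : Type) [TopologicalSpace X] [CompactSpace X] (u2 : ℝ → X → ℝ)
    (h : Continuous (fun q : ℝ × X => u2 q.1 q.2)) (η : ℝ) (hη : 0 < η) :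
    ∃ δ : ℝ, 0 < δ ∧ ∀ t : ℝ, |t| < δ → ∀ x : X, |u2 t x - u2 0 x| ≤ η := by
  have h0 : Continuous (fun q : ℝ × X => u2 q.1 q.2 - u2 0 q.2) :=
    h.sub (h.comp (continuous_const.prodMk continuous_snd))
  have hopen : IsOpen {q : ℝ × X | |u2 q.1 q.2 - u2 0 q.2| < η} :=
    isOpen_lt h0.abs continuous_const
  have hsub : ({0} : Set ℝ) ×ˢ (univ : Set X) ⊆ {q : ℝ × X | |u2 q.1 q.2 - u2 0 q.2| < η} := by
    rintro ⟨a, x⟩ ⟨ha, _⟩
    have ha' : a = 0 := ha
    subst ha'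
    show |u2 0 x - u2 0 x| < η
    rw [sub_self, abs_zero]
    exact hη
  obtain ⟨V, V', hV, _, h1, h2, h3⟩ :=
    generalized_tube_lemma isCompact_singleton isCompact_univ hopen hsub
  obtain ⟨δ, hδ, hball⟩ := Metric.isOpen_iff.1 hV 0 (h1 rfl)
  refine ⟨δ, hδ, fun t ht x => ?_⟩
  have h4 : t ∈ V := hball (by rw [mem_ball, dist_zero_right, Real.norm_eq_abs]; exact ht)
  have h5 : ((t, x) : ℝ × X) ∈ {q : ℝ × X | |u2 q.1 q.2 - u2 0 q.2| < η} :=
    h3 ⟨h4, h2 (mem_univ x)⟩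
  exact le_of_lt h5

/-- the second difference -/
private theorem B_diff (f f1 f2 : ℝ → ℝ) (h1 : ∀ t, HasDerivAt f (f1 t) t) (h2 : ∀ t, HasDerivAt f1 (f2 t) t)
    (η s : ℝ) (hη : 0 ≤ η) (hs : 0 ≤ s) (hb : ∀ t : ℝ, |t| ≤ s → |f2 t - f2 0| ≤ η) :
    |f s + f (-s) - 2 * f 0 - s ^ 2 * f2 0| ≤ 2 * η * s * s := by
  have hneg : ∀ t : ℝ, HasDerivAt (fun t : ℝ => -t) (-1) t := fun t => hasDerivAt_neg' t
  have hg' : ∀ t, HasDerivAt (fun t => f1 t - f1 (-t) - 2 * t * f2 0) (f2 t + f2 (-t) - 2 * f2 0) t := by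
    intro t
    have e1 := (h2 (-t)).comp t (hneg t)
    have e2 : HasDerivAt (fun t : ℝ => 2 * t * f2 0) (2 * f2 0) t := by
      have := ((hasDerivAt_id t).const_mul (2 : ℝ)).mul_const (f2 0)
      simpa using this
    have e3 := ((h2 t).sub e1).sub e2
    exact e3.congr_deriv (by ring)
  have hg : ∀ t, HasDerivAt (fun t => f t + f (-t) - 2 * f 0 - t ^ 2 * f2 0) (f1 t - f1 (-t) - 2 * t * f2 0) t := by
    intro t
    have e1 := (h1 (-t)).comp t (hneg t)
    have e2 : HasDerivAt (fun t : ℝ => t ^ 2 * f2 0) (2 * t * f2 0) t := by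
      have := ((hasDerivAt_id t).pow 2).mul_const (f2 0)
      simpa using this
    have e3 := (((h1 t).add e1).sub_const (2 * f 0)).sub e2
    exact e3.congr_deriv (by ring)
  have hstep1 : ∀ t ∈ Icc (0 : ℝ) s, |f1 t - f1 (-t) - 2 * t * f2 0| ≤ 2 * η * s := by
    intro t ht
    have key := (convex_Icc (0 : ℝ) s).norm_image_sub_le_of_norm_hasDerivWithin_le
      (f := fun t => f1 t - f1 (-t) - 2 * t * f2 0) (f' := fun t => f2 t + f2 (-t) - 2 * f2 0) (C := 2 * η)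
      (fun x _ => (hg' x).hasDerivWithinAt) ?_ (left_mem_Icc.2 hs) ht
    · simp only [Real.norm_eq_abs, neg_zero, mul_zero, zero_mul, sub_zero, sub_self] at key
      refine key.trans ?_
      rw [abs_of_nonneg ht.1]
      exact mul_le_mul_of_nonneg_left ht.2 (by linarith)
    · intro x hx
      rw [Real.norm_eq_abs]
      have a1 := hb x (by rw [abs_of_nonneg hx.1]; exact hx.2)
      have a2 := hb (-x) (by rw [abs_neg, abs_of_nonneg hx.1]; exact hx.2)
      have : f2 x + f2 (-x) - 2 * f2 0 = (f2 x - f2 0) + (f2 (-x) - f2 0) := by ring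
      rw [this]
      refine (abs_add_le _ _).trans ?_
      linarith
  have key := (convex_Icc (0 : ℝ) s).norm_image_sub_le_of_norm_hasDerivWithin_le
    (f := fun t => f t + f (-t) - 2 * f 0 - t ^ 2 * f2 0) (f' := fun t => f1 t - f1 (-t) - 2 * t * f2 0)
    (C := 2 * η * s) (fun x _ => (hg x).hasDerivWithinAt) (fun x hx => by
      rw [Real.norm_eq_abs]; exact hstep1 x hx) (left_mem_Icc.2 hs) (right_mem_Icc.2 hs)
  have hz : f 0 + f (-0) - 2 * f 0 - (0 : ℝ) ^ 2 * f2 0 = 0 := by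
    rw [neg_zero]; ring
  simp only [Real.norm_eq_abs] at key
  rw [hz, sub_zero, sub_zero, abs_of_nonneg hs] at key
  exact key

theorem hB : StB := by
  intro X _ _ u u1 u2 h1 h2 hc h0 ε hε
  obtain ⟨δ1, hδ1, hu⟩ := B_unif X u2 hc (ε / 4) (by linarith)
  obtain ⟨M, hM⟩ := isCompact_univ.exists_bound_of_continuousOn (f := fun x : X => u 0 x) h0.continuousOn
  have hMp : 0 < |M| + 1 := by positivity
  refine ⟨min δ1 (min 1 (ε / (2 * (|M| + 1)))), lt_min hδ1 (lt_min one_pos (by positivity)), ?_⟩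
  intro s hs hsδ x
  have hs1 : s < δ1 := lt_of_lt_of_le hsδ (min_le_left _ _)
  have hs2 : s < 1 := lt_of_lt_of_le hsδ ((min_le_right _ _).trans (min_le_left _ _))
  have hs3 : s < ε / (2 * (|M| + 1)) := lt_of_lt_of_le hsδ ((min_le_right _ _).trans (min_le_right _ _))
  have hs2pos : 0 < s ^ 2 := by positivity
  have hd := B_diff (fun t => u t x) (fun t => u1 t x) (fun t => u2 t x) (fun t => h1 t x) (fun t => h2 t x)
    (ε / 4) s (by linarith) hs.le (fun t ht => hu t (lt_of_le_of_lt ht hs1) x)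
  have hcos : |Real.cos s - (1 - s ^ 2 / 2)| ≤ |s| ^ 4 * (5 / 96) :=
    Real.cos_bound (by rw [abs_of_pos hs]; exact hs2.le)
  rw [abs_of_pos hs] at hcos
  have hu0 : |u 0 x| ≤ |M| + 1 := by
    have := hM x (mem_univ x)
    rw [Real.norm_eq_abs] at this
    linarith [le_abs_self M]
  have hid : (u s x + u (-s) x - 2 * Real.cos s * u 0 x) / s ^ 2 - (u2 0 x + u 0 x) =
      ((u s x + u (-s) x - 2 * u 0 x - s ^ 2 * u2 0 x) - 2 * (Real.cos s - (1 - s ^ 2 / 2)) * u 0 x) / s ^ 2 := by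
    field_simp
    ring
  rw [hid, abs_div, abs_of_pos hs2pos, div_le_iff₀ hs2pos]
  have e1 : |2 * (Real.cos s - (1 - s ^ 2 / 2)) * u 0 x| ≤ s ^ 2 * (ε / 2) := by
    rw [abs_mul, abs_mul, abs_of_pos (two_pos)]
    have b1 : 2 * |Real.cos s - (1 - s ^ 2 / 2)| * |u 0 x| ≤ 2 * (s ^ 4 * (5 / 96)) * (|M| + 1) := by
      gcongr
    have b2 : s * (2 * (|M| + 1)) < ε := by
      rw [lt_div_iff₀ (by positivity)] at hs3
      exact hs3
    have b3 : s ^ 2 * (|M| + 1) ≤ ε / 2 := by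
      nlinarith [mul_pos hs hMp]
    have b4 : 2 * (s ^ 4 * (5 / 96)) * (|M| + 1) ≤ s ^ 2 * (s ^ 2 * (|M| + 1)) := by
      have : 0 ≤ s ^ 4 * (|M| + 1) := by positivity
      nlinarith
    have b5 : s ^ 2 * (s ^ 2 * (|M| + 1)) ≤ s ^ 2 * (ε / 2) := mul_le_mul_of_nonneg_left b3 hs2pos.le
    linarith
  refine (abs_sub _ _).trans ?_
  nlinarith [hd, e1]

end Pool.Agent.Helper71.PM
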